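import Pool.Agent.N676.OR.Diag
import Pool.Agent.N24.KM.All

/-!
# Polynomials with a simple rational zero at linear forms: exact prime divisors outside pronull sets

`Hit P (F(λ(c)))` is true for all `c` outside a pronull set, if `F` has a rational zero of multiplicity
one and the sum of the reciprocals of the primes of `P` diverges. For countably many pronull sets one set
of indices of density zero is sufficient.
-/

set_option autoImplicit false

namespace Pool.Agent.L7h22.ZC

open Finset Filter Topology MeasureTheory Polynomial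
open Pool.Agent.N24.RW (ProNull t_CRIT Clo.mono Clo.union Clo.finite one_val_ne one_dvd)
open Pool.Agent.N676.OR (Hit Big lin linq linq_surj exac exac_card DensityZero)

/-- The polynomial has a rational zero of multiplicity one. -/
def SimpleZero (F : ℤ[X]) : Prop :=
  ∃ α : ℚ, aeval α F = 0 ∧ aeval α (derivative F) ≠ 0

/-- the linear factor -/
lemma factor {F : ℤ[X]} (h : SimpleZero F) : ∃ (s r : ℤ) (G : ℤ[X]), s ≠ 0 ∧
    F = (C s * X - C r) * G ∧ (scaleRoots G s).eval r ≠ 0 := by
  obtain ⟨α, h1, h2⟩ := h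
  have hs : (α.den : ℤ) ≠ 0 := by exact_mod_cast α.den_ne_zero
  have hcop : IsCoprime (α.den : ℤ) α.num := by
    rw [Int.isCoprime_iff_gcd_eq_one, Int.gcd_comm]
    exact α.reduced
  have hprim : (C (α.den : ℤ) * X - C α.num : ℤ[X]).IsPrimitive := by
    rw [isPrimitive_iff_isUnit_of_C_dvd]
    intro a ha
    rw [C_dvd_iff_dvd_coeff] at ha
    have e1 := ha 1
    have e0 := ha 0
    simp only [coeff_sub, coeff_C_mul, coeff_X_one, mul_one, coeff_C_succ, sub_zero] at e1
    simp only [coeff_sub, coeff_C_mul, coeff_X_zero, mul_zero, coeff_C_zero, zero_sub, dvd_neg] at e0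
    have e1' : a ∣ (α.den : ℤ) := by simpa using e1
    exact hcop.isUnit_of_dvd' e1' e0
  have hdvd : (C (α.den : ℤ) * X - C α.num : ℤ[X]) ∣ F := by
    have hF : (X - C α) ∣ F.map (Int.castRingHom ℚ) := by
      rw [dvd_iff_isRoot, IsRoot.def, eval_map]
      rw [aeval_def] at h1
      exact h1
    by_cases hF0 : F = 0
    · rw [hF0]; exact dvd_zero _
    rw [F.eq_C_content_mul_primPart]
    refine Dvd.dvd.mul_left ?_ _
    refine hprim.dvd_of_fraction_map_dvd_fraction_map (K := ℚ) ?_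
    have h3 : (C (α.den : ℤ) * X - C α.num : ℤ[X]).map (algebraMap ℤ ℚ) =
        C (α.den : ℚ) * (X - C α) := by
      simp only [Polynomial.map_sub, Polynomial.map_mul, map_C, map_X, mul_sub, ← C_mul]
      congr 2
      simp only [algebraMap_int_eq, eq_intCast]
      rw [mul_comm]
      exact (Rat.mul_den_eq_num α).symm
    rw [h3]
    have hu : IsUnit (C (α.den : ℚ)) := by
      rw [isUnit_C, isUnit_iff_ne_zero]
      exact_mod_cast α.den_ne_zero
    rw [hu.mul_left_dvd]
    have h4 : F.map (Int.castRingHom ℚ) = C (F.content : ℚ) * F.primPart.map (algebraMap ℤ ℚ) := by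
      conv_lhs => rw [F.eq_C_content_mul_primPart]
      rw [Polynomial.map_mul, map_C]
      rfl
    rw [h4] at hF
    have hc : IsUnit (C (F.content : ℚ)) := by
      rw [isUnit_C, isUnit_iff_ne_zero]
      exact_mod_cast content_eq_zero_iff.not.2 hF0
    exact (hc.dvd_mul_left).1 hF
  obtain ⟨G, hG⟩ := hdvd
  refine ⟨α.den, α.num, G, hs, hG, ?_⟩
  intro h0
  apply h2
  have hG0 : aeval α G = 0 := by
    have e1 : aeval ((α.den : ℤ) • α) (scaleRoots G (α.den : ℤ)) = (α.den : ℤ) ^ G.natDegree • aeval α G := by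
      rw [zsmul_eq_mul, zsmul_eq_mul]
      have := scaleRoots_eval₂_mul (Int.castRingHom ℚ) (p := G) α (α.den : ℤ)
      rw [aeval_def, aeval_def]
      simpa using this
    have e2 : ((α.den : ℤ) • α : ℚ) = ((α.num : ℤ) : ℚ) := by
      rw [zsmul_eq_mul]
      push_cast
      rw [mul_comm]
      exact Rat.mul_den_eq_num α
    rw [e2] at e1
    have e3 : aeval ((α.num : ℤ) : ℚ) (scaleRoots G (α.den : ℤ)) =
        (((scaleRoots G (α.den : ℤ)).eval α.num : ℤ) : ℚ) := by
      rw [aeval_def, eval₂_at_intCast]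
      simp
    rw [e3, h0, Int.cast_zero] at e1
    rw [zsmul_eq_mul] at e1
    rcases mul_eq_zero.1 e1.symm with h5 | h5
    · exfalso
      have h6 : ((α.den : ℤ) : ℚ) ≠ 0 := by exact_mod_cast α.den_ne_zero
      have h7 : (((α.den : ℤ) ^ G.natDegree : ℤ) : ℚ) ≠ 0 := by
        rw [Int.cast_pow]
        exact pow_ne_zero _ h6
      exact h7 h5
    · exact h5
  rw [hG, derivative_mul, map_add, map_mul, map_mul, hG0, mul_zero, zero_add]
  have e4 : aeval α (C (α.den : ℤ) * X - C α.num : ℤ[X]) = 0 := by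
    rw [aeval_def, eval₂_sub, eval₂_mul, eval₂_C, eval₂_C, eval₂_X]
    simp only [algebraMap_int_eq, eq_intCast]
    rw [Int.cast_natCast, mul_comm, Rat.mul_den_eq_num, sub_self]
  rw [e4, zero_mul]

/-- exact divisors of the linear factor are exact divisors of the value -/
lemma exact_of {s r : ℤ} {G : ℤ[X]} (hs : s ≠ 0) (h0 : (scaleRoots G s).eval r ≠ 0) {p : ℕ}
    (hp : p.Prime) (hps : s.natAbs < p) (hp0 : ((scaleRoots G s).eval r).natAbs < p) (x : ℤ)
    (h1 : (p : ℤ) ∣ s * x - r) (h2 : ¬ (p : ℤ) ^ 2 ∣ s * x - r) :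
    (p : ℤ) ∣ ((C s * X - C r) * G).eval x ∧ ¬ (p : ℤ) ^ 2 ∣ ((C s * X - C r) * G).eval x := by
  have hpI : Prime (p : ℤ) := Nat.prime_iff_prime_int.1 hp
  have hev : ((C s * X - C r) * G).eval x = (s * x - r) * G.eval x := by simp
  have hG : ¬ (p : ℤ) ∣ G.eval x := by
    intro hG
    have e1 : (scaleRoots G s).eval (s * x) = s ^ G.natDegree * G.eval x := by
      have := scaleRoots_eval₂_mul (RingHom.id ℤ) (p := G) x s
      simpa [eval₂_id] using this
    have e2 : (p : ℤ) ∣ (scaleRoots G s).eval (s * x) := by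
      rw [e1]; exact Dvd.dvd.mul_left hG _
    have e3 : (p : ℤ) ∣ (scaleRoots G s).eval (s * x) - (scaleRoots G s).eval r :=
      h1.trans (sub_dvd_eval_sub _ _ _)
    have e4 : (p : ℤ) ∣ (scaleRoots G s).eval r := by
      have := dvd_sub e2 e3
      simpa using this
    have e5 := Int.natAbs_dvd_natAbs.2 e4
    rw [Int.natAbs_natCast] at e5
    have := Nat.le_of_dvd (Int.natAbs_pos.2 h0) e5
    omega
  rw [hev]
  refine ⟨Dvd.dvd.mul_right h1 _, fun h3 => h2 ?_⟩
  rw [mul_comm] at h3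
  have hc : IsCoprime ((p : ℤ) ^ 2) (G.eval x) :=
    IsCoprime.pow_left ((Prime.coprime_iff_not_dvd hpI).2 hG)
  exact hc.dvd_of_dvd_mul_left h3

section

variable {ι : Type} [Fintype ι]

/-- affine forms -/
theorem pro_hit_aff {P : Set ℕ} (hP : Big P) {lam : ι → ℤ} (hlam : lam ≠ 0) (t : ℤ) :
    ProNull {c : ι → ℤ | ¬ Hit P (lin lam c + t)} := by
  classical
  obtain ⟨l, hl⟩ : ∃ l, lam l ≠ 0 := by
    by_contra h
    push Not at h
    exact hlam (funext h)
  set w : ℕ → ℝ := fun p => if p ∈ P then 1 / (2 * (p : ℝ)) else 0 with hw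
  have hns : ¬ Summable (fun p : ℕ => if p.Prime then w p else 0) := by
    intro hsum
    have h1 := hsum.mul_left 2
    have h2 : Set.indicator {p : ℕ | p.Prime ∧ p ∈ P} (fun p : ℕ => 1 / (p : ℝ)) =
        fun p : ℕ => 2 * (if p.Prime then w p else 0) := by
      funext p
      by_cases h : p.Prime
      · by_cases h' : p ∈ P
        · have h3 : (p : ℝ) ≠ 0 := by exact_mod_cast h.ne_zero
          rw [Set.indicator_of_mem (show p ∈ {p : ℕ | p.Prime ∧ p ∈ P} from ⟨h, h'⟩), if_pos h, hw]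
          simp only [h', if_true]
          field_simp
        · rw [Set.indicator_of_notMem (show p ∉ {p : ℕ | p.Prime ∧ p ∈ P} from fun h3 => h' h3.2),
            if_pos h, hw]
          simp [h']
      · rw [Set.indicator_of_notMem (show p ∉ {p : ℕ | p.Prime ∧ p ∈ P} from fun h3 => h h3.1),
          if_neg h, mul_zero]
    apply hP
    rw [h2]
    exact h1
  set ex : ∀ p : ℕ, Set (ZMod (p ^ 2)) := fun p => {a | a + (t : ZMod (p ^ 2)) ∈ exac p} with hex
  have hexc : ∀ p : ℕ, 2 ≤ p → (ex p).ncard = (exac p).ncard := by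
    intro p hp
    have : NeZero (p ^ 2) := ⟨by positivity⟩
    have h1 : (fun a : ZMod (p ^ 2) => a + (t : ZMod (p ^ 2))) '' ex p = exac p := by
      ext a
      simp only [hex, Set.mem_image, Set.mem_setOf_eq]
      constructor
      · rintro ⟨x, hx, rfl⟩
        exact hx
      · intro ha
        exact ⟨a - t, by simpa using ha, by ring⟩
    rw [← h1, Set.ncard_image_of_injective _ (add_left_injective _)]
  have h := t_CRIT ι (fun p => p ^ 2) (fun p hp => Nat.pos_of_ne_zero (by
      have := hp.pos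
      positivity)) (fun p p' hp hp' hne =>
      Nat.Coprime.pow 2 2 ((Nat.coprime_primes hp hp').mpr hne))
    (fun p => if p ∈ P then (linq lam (p ^ 2)) ⁻¹' (ex p) else ∅) (lam l).natAbs w
    (fun p => by
      simp only [hw]
      split_ifs <;> positivity) hns (fun p hp hlp => by
      by_cases hpP : p ∈ P
      · simp only [hw, hpP, if_true]
        have : NeZero (p ^ 2) := ⟨by have := hp.pos; positivity⟩
        have hun : IsUnit ((lam l : ℤ) : ZMod (p ^ 2)) := by
          rw [ZMod.coe_int_isUnit_iff_isCoprime, Nat.cast_pow]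
          apply IsCoprime.pow_left
          rw [Int.isCoprime_iff_gcd_eq_one]
          have h7 : Nat.Coprime p (lam l).natAbs := by
            rw [Nat.Prime.coprime_iff_not_dvd hp]
            intro h8
            have := Nat.le_of_dvd (Int.natAbs_pos.2 hl) h8
            omega
          exact h7
        have h1 := Pool.Agent.N24.RW.Clo.ncard_preimage (linq lam (p ^ 2)) (linq_surj hun) (ex p)
        rw [Pool.Agent.N24.RW.Clo.card_pi, Nat.card_eq_fintype_card, ZMod.card, hexc p hp.two_le] at h1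
        have h2 := exac_card hp.two_le
        have hp0 : (0 : ℝ) < p := by exact_mod_cast hp.pos
        have h3 : ((((linq lam (p ^ 2)) ⁻¹' (ex p)).ncard : ℕ) : ℝ) * ((p : ℝ) ^ 2) =
            ((exac p).ncard : ℝ) * (((p ^ 2 : ℕ) : ℝ) ^ Fintype.card ι) := by
          exact_mod_cast h1
        have h4 : (0 : ℝ) ≤ (((p ^ 2 : ℕ) : ℝ) ^ Fintype.card ι) := by positivity
        have h5 := mul_le_mul_of_nonneg_right h2 h4
        rw [← h3] at h5
        have h6 : 1 / (2 * (p : ℝ)) * (((p ^ 2 : ℕ) : ℝ) ^ Fintype.card ι) * (p : ℝ) ^ 2 ≤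
            ((((linq lam (p ^ 2)) ⁻¹' (ex p)).ncard : ℕ) : ℝ) * ((p : ℝ) ^ 2) := by
          refine le_trans (le_of_eq ?_) h5
          field_simp
        exact le_of_mul_le_mul_right h6 (by positivity)
      · simp [hw, hpP])
  refine Pool.Agent.N24.RW.Clo.mono (fun c hc => ?_) h
  intro p hp hlp hmem
  apply hc
  by_cases hpP : p ∈ P
  · rw [if_pos hpP] at hmem
    have h1 : linq lam (p ^ 2) (fun i => (c i : ZMod (p ^ 2))) = ((lin lam c : ℤ) : ZMod (p ^ 2)) := by
      change ∑ i, (lam i : ZMod (p ^ 2)) * (c i : ZMod (p ^ 2)) = _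
      unfold lin
      push_cast
      rfl
    have h2 : ((lin lam c + t : ℤ) : ZMod (p ^ 2)) ∈ exac p := by
      have h3 : linq lam (p ^ 2) (fun i => (c i : ZMod (p ^ 2))) ∈ ex p := hmem
      rw [h1] at h3
      push_cast
      exact h3
    exact ⟨p, hpP, hp, (one_dvd p hp.one_lt.le _).1 h2.1, (one_val_ne p hp.one_lt.le _).1 h2.2⟩
  · rw [if_neg hpP] at hmem
    exact absurd hmem (Set.notMem_empty _)

/-- finitely many sets of primes -/
theorem pro_hits_aff {PP : Set (Set ℕ)} (hf : PP.Finite) (hP : ∀ P ∈ PP, Big P) {lam : ι → ℤ}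
    (hlam : lam ≠ 0) (t : ℤ) : ProNull {c : ι → ℤ | ¬ ∀ P ∈ PP, Hit P (lin lam c + t)} := by
  classical
  obtain ⟨l, hl⟩ : ∃ l, lam l ≠ 0 := by
    by_contra h
    push Not at h
    exact hlam (funext h)
  have : Nonempty ι := ⟨l⟩
  induction PP, hf using Set.Finite.induction_on with
  | empty =>
    refine Pool.Agent.N24.RW.Clo.mono (B := ∅) ?_ (Pool.Agent.N24.RW.Clo.finite Set.finite_empty)
    intro c hc
    exact absurd (fun P hP => absurd hP (Set.notMem_empty _)) hc
  | @insert P QQ _ _ ih =>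
    refine Pool.Agent.N24.RW.Clo.mono ?_ (Pool.Agent.N24.RW.Clo.union
      (pro_hit_aff (hP P (Set.mem_insert _ _)) hlam t)
      (ih fun Q hQ => hP Q (Set.mem_insert_of_mem _ hQ)))
    intro c hc
    by_cases h1 : Hit P (lin lam c + t)
    · right
      intro h2
      apply hc
      intro Q hQ
      rcases Set.mem_insert_iff.1 hQ with rfl | hQ
      · exact h1
      · exact h2 Q hQ
    · left
      exact h1

/-- **Values of polynomials with a simple rational zero at linear forms.** -/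
theorem pro_poly {good : ℤ → Prop} (h : ∃ PP : Set (Set ℕ), PP.Finite ∧ (∀ P ∈ PP, Big P) ∧
      ∀ a : ℤ, (∀ P ∈ PP, Hit P a) → good a) {F : ℤ[X]} (hF : SimpleZero F) {lam : ι → ℤ}
    (hlam : lam ≠ 0) : ProNull {c : ι → ℤ | ¬ good (F.eval (∑ i, lam i * c i))} := by
  classical
  obtain ⟨PP, h1, h2, h3⟩ := h
  obtain ⟨s, r, G, hs, rfl, h0⟩ := factor hF
  set D : ℕ := max s.natAbs ((scaleRoots G s).eval r).natAbs with hD
  have hlam' : (fun i => s * lam i) ≠ 0 := by
    intro h
    apply hlam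
    funext i
    have h4 := congrFun h i
    simp only [Pi.zero_apply] at h4 ⊢
    exact (mul_eq_zero.1 h4).resolve_left hs
  refine Pool.Agent.N24.RW.Clo.mono ?_ (pro_hits_aff (PP := (fun P : Set ℕ => {p ∈ P | D < p}) '' PP)
    (h1.image _) (by
      rintro _ ⟨P, hP, rfl⟩
      exact (h2 P hP).above D) hlam' (-r))
  intro c hc hall
  refine hc (h3 _ fun P hP => ?_)
  obtain ⟨p, ⟨hpP, hpD⟩, hp, hp1, hp2⟩ := hall _ ⟨P, hP, rfl⟩
  have e1 : lin (fun i => s * lam i) c + -r = s * (∑ i, lam i * c i) - r := by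
    unfold lin
    rw [mul_sum]
    simp only [mul_assoc]
    ring
  rw [e1] at hp1 hp2
  have hpD' : D < p := hpD
  obtain ⟨e2, e3⟩ := exact_of hs h0 hp (lt_of_le_of_lt (le_max_left _ _) hpD')
    (lt_of_le_of_lt (le_max_right _ _) hpD') _ hp1 hp2
  exact ⟨p, hpP, hp, e2, e3⟩

end

/-- one set of indices for countably many conditions -/
theorem one_set {𝔄 : Type} [Countable 𝔄] (A : 𝔄 → Set ℕ) (h : ∀ a, DensityZero (A a)) :
    ∃ E : Set ℕ, DensityZero E ∧ ∀ a, {n : ℕ | n ∉ E ∧ n ∈ A a}.Finite := by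
  classical
  by_cases hne : Nonempty 𝔄
  · obtain ⟨f, hf⟩ := exists_surjective_nat 𝔄
    obtain ⟨E, hE1, hE2⟩ := Pool.Agent.N676.OR.diag (fun k => A (f k)) fun k => h _
    refine ⟨E, hE1, fun a => ?_⟩
    obtain ⟨k, rfl⟩ := hf a
    refine (hE2 k).subset ?_
    rintro t ⟨ht1, ht2⟩
    exact ⟨ht2, ht1⟩
  · exact ⟨∅, Pool.Agent.N676.OR.dz_empty, fun a => absurd ⟨a⟩ hne⟩

end Pool.Agent.L7h22.ZC
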